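import Pool.Agent.Y776.AxJ.Alg
import Pool.Agent.X255.RH.Loc
import Pool.Agent.X255.RH.Mea3

/-!
# The modular Schanuel conjecture with derivatives along every analytic curve, at all roots of almost all polynomials

Let `τ_1, …, τ_n` be ANY nonconstant analytic functions on a connected open set `V` with values in the upper half-plane,
such that `j(τ_i)` and `j(τ_k)` are algebraically independent over `ℂ` for `i ≠ k`. For the points `τ_i (z)` the
problem predicts in general the transcendence degree `3 n` for the numbers `τ_i (z)`, `j (τ_i (z))`, `j' (τ_i (z))`,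
`j'' (τ_i (z))`. We prove this in bounded complexity, jointly for `z` ALL roots of a polynomial (`3 n m` numbers for the
`n m` points `τ_i (z)` if there are `m` roots), for 100% of the integral polynomials of degree `g`, ordered by the maximum
`T` of the absolute values of the coefficients: there are `3 n` fixed functions among these `4 n` functions (the same
ones for all `g` and all polynomials) whose values at the roots in `V` (at distance at least `1 / (k + 1)` from the
complement) satisfy no relation whose degree, and the degree of whose coefficient field, is at most `ω (T)`, and whose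
coefficients are of size at most `T ^ ω (T)`, where `ω (T) → ∞`; the coefficients may also contain arbitrary fixed
complex numbers. We also prove lower bounds, with arbitrary complex coefficients.

Proof: `Pool.Agent.X255.NP` and `Pool.Agent.Y890.MV` (nonstandard versions of the Bombieri-Pila method), the Ax-Schanuel
theorem in the form `Pool.Agent.Y776.AxJ.exists_loc`, and `Pool.Agent.X255.RH` (independence of functions of different
variables; almost no integral polynomial has close roots).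
-/

set_option autoImplicit false

open Polynomial Filter NumberField
open scoped Classical

namespace Pool.Agent.Results.MP_f58a57_nt.AnalyticCurves

/-- The lattice `ℤ + ℤ τ`. -/
noncomputable def lattice (τ : ℂ) (h : 0 < τ.im) : PeriodPair where
  ω₁ := 1
  ω₂ := τ
  indep := (Pool.Agent.Y685.LL ⟨τ, h⟩).indep

/-- The modular invariant `j = 1728 g₂³ / (g₂³ - 27 g₃²)` on the upper half-plane. -/
noncomputable def j (τ : ℂ) : ℂ :=
  if h : 0 < τ.im then 1728 * (lattice τ h).g₂ ^ 3 / ((lattice τ h).g₂ ^ 3 - 27 * (lattice τ h).g₃ ^ 2) else 0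

/-- The values `τ_i(z)`, `j(τ_i(z))`, `j'(τ_i(z))`, `j''(τ_i(z))` (complex derivatives of `j`); the function of
name `(i, m)`, `m = 0, 1, 2, 3`. -/
noncomputable def value {n : ℕ} (τ : Fin n → ℂ → ℂ) (z : ℂ) (o : Fin n × Fin 4) : ℂ :=
  ![τ o.1 z, j (τ o.1 z), deriv j (τ o.1 z), deriv (deriv j) (τ o.1 z)] o.2

/-- An analytic curve in `ℍ^n`. -/
structure Curve (V : Set ℂ) {n : ℕ} (τ : Fin n → ℂ → ℂ) : Prop where
  isOpen : IsOpen V
  isPreconnected : IsPreconnected V
  nonempty : V.Nonempty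
  analytic : ∀ i, AnalyticOnNhd ℂ (τ i) V
  im_pos : ∀ i, ∀ z ∈ V, 0 < (τ i z).im
  nonconstant : ∀ i, ∀ c, ∃ z ∈ V, τ i z ≠ c
  /-- two of the functions `j(τ_i)` are algebraically independent over `ℂ` -/
  independent : ∀ i k, i ≠ k → ∀ P : MvPolynomial (Fin 2) ℂ, P ≠ 0 →
    ∃ z ∈ V, MvPolynomial.eval ![j (τ i z), j (τ k z)] P ≠ 0

/-- the polynomial `a_g X ^ g + … + a_0` -/
noncomputable def poly {g : ℕ} (a : Fin (g + 1) → ℤ) : ℂ[X] := ∑ i, C (a i : ℂ) * X ^ (i : ℕ)

/-- the roots of the polynomial in the set `V` -/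
noncomputable def rootsIn (V : Set ℂ) {g : ℕ} (a : Fin (g + 1) → ℤ) : Finset ℂ :=
  (poly a).roots.toFinset.filter fun z => z ∈ V

/-- The numbers `x q`, `q ∈ Q`, satisfy no relation of degree at most `k` in each of them with coefficients
`∑ ξ b * c b`, `b < k`, where the `c b` are integers of a number field of degree at most `k`, all of whose conjugates
are of absolute value at most `T ^ k`, except the relations all of whose coefficients vanish. -/
def Unrelated {Q : Type} [Fintype Q] [DecidableEq Q] (ξ : ℕ → ℂ) (k : ℕ) (T : ℝ) (x : Q → ℂ) : Prop :=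
  ∀ (F : Type) [Field F] [NumberField F], Module.finrank ℚ F ≤ k → ∀ (io : F →+* ℂ)
    (c : (Q → Fin (k + 1)) → Fin k → 𝓞 F), (∀ l b (φ : F →+* ℂ), ‖φ (c l b : F)‖ ≤ T ^ k) →
    ∑ l, (∑ b : Fin k, ξ b * io (c l b : F)) * ∏ q, x q ^ (l q : ℕ) = 0 → ∀ l, ∑ b : Fin k, ξ b * io (c l b : F) = 0

/-- Every polynomial `P` of degree at most `k` in each of the numbers `x q`, with coefficients `∑ ξ b * c b`, `b < k`,
where the `c b` are rational integers of absolute value at most `T ^ k`, satisfies `|P (x)| ≥ T ^ (-B) |p|` for each of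
its coefficients `p`. -/
def Measure {Q : Type} [Fintype Q] [DecidableEq Q] (ξ : ℕ → ℂ) (k : ℕ) (B T : ℝ) (x : Q → ℂ) : Prop :=
  ∀ c : (Q → Fin (k + 1)) → Fin k → ℤ, (∀ l b, |(c l b : ℝ)| ≤ T ^ k) → ∀ l₀,
    T ^ (-B) * ‖∑ b : Fin k, ξ b * (c l₀ b : ℂ)‖ ≤
      ‖∑ l, (∑ b : Fin k, ξ b * (c l b : ℂ)) * ∏ q, x q ^ (l q : ℕ)‖

/-- the `a` with `|a_i| ≤ T` -/
noncomputable def box (g T : ℕ) : Finset (Fin (g + 1) → ℤ) := Fintype.piFinset fun _ => Finset.Icc (-(T : ℤ)) T

/-- the points whose distance to the complement of `V` is at least `1 / (k + 1)` -/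
def region (V : Set ℂ) (k : ℕ) : Set ℂ := {z | Metric.ball z (1 / ((k : ℝ) + 1)) ⊆ V}

/-- the values of the chosen functions at all roots of `a` in the set `K` -/
noncomputable def numbers {g n m : ℕ} (K : Set ℂ) (τ : Fin n → ℂ → ℂ) (e : Fin m → Fin n × Fin 4)
    (a : Fin (g + 1) → ℤ) (x : {z // z ∈ rootsIn K a} × Fin m) : ℂ :=
  value τ x.1 (e x.2)

/-- `a` is of degree `g`, with simple roots, and the numbers at the roots in `region V k` are unrelated -/
def Good {g n m : ℕ} (V : Set ℂ) (τ : Fin n → ℂ → ℂ) (e : Fin m → Fin n × Fin 4) (ξ : ℕ → ℂ) (k : ℕ) (T : ℝ) (a : Fin (g + 1) → ℤ) : Prop :=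
  a (Fin.last g) ≠ 0 ∧ (poly a).Separable ∧ Unrelated ξ k T (numbers (region V k) τ e a)

/-- `a` is of degree `g`, with simple roots, and the numbers at the roots in `region V k` satisfy the lower bounds -/
def GoodM {g n m : ℕ} (V : Set ℂ) (τ : Fin n → ℂ → ℂ) (e : Fin m → Fin n × Fin 4) (ξ : ℕ → ℂ) (k : ℕ) (B T : ℝ) (a : Fin (g + 1) → ℤ) : Prop :=
  a (Fin.last g) ≠ 0 ∧ (poly a).Separable ∧ Measure ξ k B T (numbers (region V k) τ e a)

/-- `a` is of degree `g`, its roots are simple, of absolute value at most `R`, at distance at least `η` from each other,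
and the roots in `V` are at distance at least `η` from the complement of `V` -/
def Position (V : Set ℂ) (R η : ℝ) {g : ℕ} (a : Fin (g + 1) → ℤ) : Prop :=
  a (Fin.last g) ≠ 0 ∧ (poly a).Separable ∧ ∀ z, (poly a).eval z = 0 → ‖z‖ ≤ R ∧
    (∀ w, (poly a).eval w = 0 → w ≠ z → η ≤ ‖z - w‖) ∧ (z ∈ V → Metric.ball z η ⊆ V)

theorem j_eq {τ : ℂ} (h : 0 < τ.im) : j τ = Pool.Agent.Y776.jf τ := by
  have h1 : Pool.Agent.Y685.LC τ = lattice τ h := by
    rw [Pool.Agent.Y685.LC, UpperHalfPlane.ofComplex_apply_of_im_pos h]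
    rfl
  rw [j, dif_pos h, Pool.Agent.Y776.jf, h1]

theorem j_ev {τ : ℂ} (h : 0 < τ.im) : j =ᶠ[nhds τ] Pool.Agent.Y776.jf := by
  filter_upwards [Pool.Agent.Y776.AxJ.isOpen_H.mem_nhds h] with σ hσ
  exact j_eq hσ

theorem dj_eq {τ : ℂ} (h : 0 < τ.im) : deriv j τ = deriv Pool.Agent.Y776.jf τ := (j_ev h).deriv_eq

theorem dj_ev {τ : ℂ} (h : 0 < τ.im) : deriv j =ᶠ[nhds τ] deriv Pool.Agent.Y776.jf := by
  filter_upwards [Pool.Agent.Y776.AxJ.isOpen_H.mem_nhds h] with σ hσ
  exact dj_eq hσ

theorem ddj_eq {τ : ℂ} (h : 0 < τ.im) : deriv (deriv j) τ = deriv (deriv Pool.Agent.Y776.jf) τ := (dj_ev h).deriv_eq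

theorem fmj {V : Set ℂ} {n : ℕ} {τ : Fin n → ℂ → ℂ} (h : Curve V τ) :
    Pool.Agent.Y776.AxJ.Fmj V τ (fun (i : Fin 0) (_ : ℂ) => i.elim0) where
  op := h.isOpen
  conn := h.isPreconnected
  ne := h.nonempty
  ta := h.analytic
  im := h.im_pos
  nc := h.nonconstant
  ji := by
    intro i k hik P hP
    by_contra hne
    obtain ⟨z, hz, hz0⟩ := h.independent i k hik P hne
    apply hz0
    rw [← hP z hz]
    congr 2
    funext m
    fin_cases m
    · exact j_eq (h.im_pos i z hz)
    · exact j_eq (h.im_pos k z hz)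
  wa := fun i => i.elim0
  wi := fun m _ _ => funext fun i => i.elim0

/-- the name of a function -/
def nm {n : ℕ} : Pool.Agent.Y776.AxJ.Nj n 0 → Fin n × Fin 4
  | Sum.inl o => o
  | Sum.inr (Sum.inl k) => k.elim0
  | Sum.inr (Sum.inr k) => k.elim0

theorem nm_inj {n : ℕ} : Function.Injective (nm (n := n)) := by
  rintro (o | k | k) (o' | k' | k') h
  · exact congrArg Sum.inl h
  all_goals first | exact k.elim0 | exact k'.elim0

theorem value_eq {V : Set ℂ} {n : ℕ} {τ : Fin n → ℂ → ℂ} (h : Curve V τ) {z : ℂ} (hz : z ∈ V)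
    (o : Pool.Agent.Y776.AxJ.Nj n 0) :
    Pool.Agent.Y776.AxJ.yj τ (fun (i : Fin 0) (_ : ℂ) => i.elim0) o z = value τ z (nm o) := by
  rcases o with ⟨i, m⟩ | k | k
  · fin_cases m
    · rfl
    · exact (j_eq (h.im_pos i z hz)).symm
    · exact (dj_eq (h.im_pos i z hz)).symm
    · exact (ddj_eq (h.im_pos i z hz)).symm
  · exact k.elim0
  · exact k.elim0

theorem choice_exists {n : ℕ} (hn : 0 < n) {V : Set ℂ} {τ : Fin n → ℂ → ℂ} (hc : Curve V τ) :
    ∃ e : Fin (3 * n) → Fin n × Fin 4, Function.Injective e ∧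
      (∀ w, AnalyticOnNhd ℂ (fun z => value τ z (e w)) V) ∧
      Pool.Agent.X255.RH.Indep V (fun w z => value τ z (e w)) := by
  obtain ⟨e, he, hloc⟩ := Pool.Agent.Y776.AxJ.exists_loc (fmj hc) hn
  refine ⟨fun w => nm (e w), fun w w' h => he (nm_inj h), fun w z hz => ?_, ?_⟩
  · refine (Pool.Agent.Y776.AxJ.yj_an (fmj hc) (e w) z hz).congr ?_
    filter_upwards [hc.isOpen.mem_nhds hz] with y hy
    exact value_eq hc hy (e w)
  · intro P hP
    refine Pool.Agent.X255.RH.indep_of_loc hc.isOpen hc.nonempty hloc P fun z hz => ?_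
    rw [← hP z hz]
    unfold Pool.Agent.Y890.SP.evF
    congr 1
    funext w
    exact value_eq hc hz (e w)

/-- **Theorem.** Let `τ_1, …, τ_n` be as in `Curve`. For a certain choice of `3 n` of the functions `τ_i`, `j(τ_i)`,
`j'(τ_i)`, `j''(τ_i)` and all `g ≥ 1` the following holds.
(1) For every sequence `ξ` there is a monotone `ω`, `ω(T) → ∞`, such that the proportion of the polynomials with
`|a_i| ≤ T` which are not `Good` with `k = ω(T)` is at most `1 / ω(T)`.
(2) For every `k ≥ 1` there are `B` and `T₀` such that for `T ≥ T₀` and all `ξ` (which may depend on `T`) the proportion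
of the polynomials with `|a_i| ≤ T` which are not `GoodM` is at most `1 / k`.
(3) For fixed `k ≥ 1`, `R`, `η > 0` and `ε > 0` there are `B`, `C` such that for all `ξ` the lower bounds
`Measure ξ k B T` for the numbers at the roots in `V` hold for all but `C T ^ (g + ε)` of the polynomials with
`|a_i| ≤ T` whose roots are in the compact position `Position V R η` (there are about `(2 T) ^ (g + 1)` polynomials).
The choice `e` of `3 n` among the `4 n` functions depends only on the curve, not on `g`. -/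
theorem result (n : ℕ) (hn : 0 < n) (V : Set ℂ) (τ : Fin n → ℂ → ℂ) (hc : Curve V τ) :
    ∃ e : Fin (3 * n) → Fin n × Fin 4, Function.Injective e ∧ ∀ g : ℕ, 0 < g →
    ((∀ ξ : ℕ → ℂ, ∃ ω : ℕ → ℕ, Tendsto ω atTop atTop ∧ Monotone ω ∧ ∀ T,
      ω T * ((box g T).filter fun a => ¬ Good V τ e ξ (ω T) T a).card ≤ (box g T).card) ∧
    (∀ k : ℕ, 1 ≤ k → ∃ (B : ℝ) (T₀ : ℕ), ∀ T : ℕ, T₀ ≤ T → ∀ ξ : ℕ → ℂ,
      (k : ℝ) * ((box g T).filter fun a => ¬ GoodM V τ e ξ k B T a).card ≤ (box g T).card) ∧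
    (∀ (k : ℕ) (R η ε : ℝ), 1 ≤ k → 0 < η → 0 < ε → ∃ B C : ℝ, ∀ T : ℕ, 1 ≤ T → ∀ ξ : ℕ → ℂ,
      (((box g T).filter fun a => Position V R η a ∧ ¬ Measure ξ k B T (numbers V τ e a)).card : ℝ) ≤
        C * (T : ℝ) ^ ((g : ℝ) + ε))) := by
  have hop : IsOpen V := hc.isOpen
  have hpre : IsPreconnected V := hc.isPreconnected
  obtain ⟨e, he, han, hind⟩ := choice_exists hn hc
  refine ⟨e, he, fun g hg => ?_⟩

  refine ⟨fun ξ => ?_, fun k hk => ?_, fun k R η ε hk hη hε => ?_⟩
  · exact Pool.Agent.X255.RH.main_all (g := g) hg hpre hop (region V) (Pool.Agent.X255.RH.tame_deep V) han hind ξ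
  · exact Pool.Agent.X255.RH.mea_all (g := g) hg hpre hop (Pool.Agent.X255.RH.tame_deep V k) han hind k hk
  · exact Pool.Agent.X255.RH.mea_eps (g := g) hg hpre hop han hind V k R η ε hη hε

end Pool.Agent.Results.MP_f58a57_nt.AnalyticCurves
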