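import Pool.Agent.X39.Near.Master
import Pool.Agent.Y771.KF.MSP

/-!
# Values of `j`, `j'`, `j''` at ALL algebraic points close to any point outside a set of dimension zero

Let `s_1, …, s_p > 0` be real numbers, linearly independent over `ℚ` (for instance `p = 1`, `s_1 = 1`), let
`u_1, …, u_q, w` be polynomials and `ξ_1, …, ξ_g` complex numbers (for instance values of `j'` at special points).
Outside ONE set of points `x` of the upper half-plane of Hausdorff dimension `0`, for all number fields
`F ⊂ ℂ`, all `ω > 0`, `d` and `A` there are `B` and `T₁` such that for all `T ≥ T₁` and ALL points `z ∈ F` of height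
at most `T` with `|z - x| ≤ T ^ (-ω)` the numbers `e^(-2πi s_i z)`, `j (s_i z)`, `j' (s_i z)`, `j'' (s_i z)` satisfy no
relation of degree at most `d` with coefficients which are polynomials of degree at most `d` in the
`u_k(z) / w(z)` and the `ξ_i`, with coefficients in `F` of height at most `T ^ A`, not even up to `T ^ (-B)`.
-/

set_option autoImplicit false

open MeasureTheory NumberField

namespace Pool.Agent.Results.MP_f58a57_nt.ApproximationsOfAllNumbers

open Pool.Agent.X39.Near (Size Dependent)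

/-- the normalised Eisenstein series of weight `4` -/
noncomputable def E4 (τ : ℂ) : ℂ :=
  1 + 240 * ∑' m : ℕ, ((ArithmeticFunction.sigma 3 (m + 1) : ℕ) : ℂ) *
    Complex.exp (2 * (Real.pi : ℂ) * Complex.I * τ) ^ (m + 1)

/-- the normalised Eisenstein series of weight `6` -/
noncomputable def E6 (τ : ℂ) : ℂ :=
  1 - 504 * ∑' m : ℕ, ((ArithmeticFunction.sigma 5 (m + 1) : ℕ) : ℂ) *
    Complex.exp (2 * (Real.pi : ℂ) * Complex.I * τ) ^ (m + 1)

/-- the modular invariant `j = q⁻¹ + 744 + 196884 q + ⋯` -/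
noncomputable def j (τ : ℂ) : ℂ := 1728 * E4 τ ^ 3 / (E4 τ ^ 3 - E6 τ ^ 2)

/-- `exp (-2πi z), j (z), j' (z), j'' (z)` (complex derivatives) -/
noncomputable def jet (z : ℂ) : Fin 4 → ℂ :=
  ![Complex.exp (-(2 * (Real.pi : ℂ) * Complex.I * z)), j z, deriv j z, deriv (deriv j) z]

/-- the functions `exp (-2πi s_i z), j (s_i z), j' (s_i z), j'' (s_i z)` -/
noncomputable def values {p : ℕ} (s : Fin p → ℝ) (v : Fin p × Fin 4) (z : ℂ) : ℂ := jet ((s v.1 : ℂ) * z) v.2

/-- the upper half-plane -/
def H : Set ℂ := {z | 0 < z.im}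

/-- **Theorem.** Let `s_1, …, s_p > 0` be linearly independent over `ℚ`; let `u_k`, `w` be complex polynomials, `w`
without zeros in the upper half-plane `H`, and `ξ_1, …, ξ_g` complex numbers. There is a set `E` of complex numbers of Hausdorff dimension `0` such that for all `x ∈ H` outside `E`, all
number fields `F` with an embedding `ι` in `ℂ`, all `d`, `A` and `ω > 0` there are `B`, `T₁` such that for all
`T ≥ T₁` and all `t ∈ F`, quotients of integers with conjugates at most `T`, with `|ι t - x| ≤ T ^ (-ω)`, the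
values of these functions at `t` are not dependent. -/
theorem result {p q g : ℕ} (s : Fin p → ℝ) (hs0 : ∀ i, 0 < s i)
    (hs : ∀ c : Fin p → ℤ, ∑ i, (c i : ℝ) * s i = 0 → c = 0)
    (u : Fin q → Polynomial ℂ) (w : Polynomial ℂ) (hw : ∀ t ∈ H, w.eval t ≠ 0) (ξ : Fin g → ℂ) :
    ∃ E : Set ℂ, dimH E = 0 ∧
      (∀ x ∈ H, x ∉ E → ∀ (F : Type) [Field F] [NumberField F] (ι : F →+* ℂ)
        (d A : ℕ) (ω : ℝ), 0 < ω → ∃ B T₁ : ℝ, ∀ T : ℝ, T₁ ≤ T → ∀ t : F, Size F T t →
          ‖ι t - x‖ ≤ T ^ (-ω) → ¬ Dependent (values s) u w ξ F ι d A B T t) := by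
  obtain ⟨E, h1, h2, -⟩ := Pool.Agent.X39.Near.master H (isOpen_lt continuous_const Complex.continuous_im)
    (values s) (fun i t ht => Pool.Agent.Y771.KF.fP_an s hs0 i t ht)
    (Pool.Agent.X39.Near.locInd_of Pool.Agent.Y771.KF.preconn_H (values s)
      (fun i t ht => Pool.Agent.Y771.KF.fP_an s hs0 i t ht) (Pool.Agent.Y771.KF.fP_ind s hs0 hs)) u w hw ξ
  exact ⟨E, h1, h2⟩

end Pool.Agent.Results.MP_f58a57_nt.ApproximationsOfAllNumbers
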