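import Pool.Agent.X120.JG.Spc
import Pool.Agent.Y120.J.JDef

/-!
# The modular Schanuel conjecture with derivatives and special points, where `j` is a term of a geometric sequence

Let `b_1, …, b_k ≥ 2` be integers, not necessarily different, and let `z_1, …, z_k` be **any** points of the upper
half-plane with `j(z_i) = b_i^(n_i)` or `j(z_i) = -b_i^(n_i)`. If the `z_i` are not special and pairwise not equivalent, the
conjecture predicts that the `3 k` numbers `z_i`, `j'(z_i)`, `j''(z_i)` are algebraically independent, and that they stay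
independent if one adds the values `j'(τ_1), …, j'(τ_q)` at inequivalent special points `τ_l` with `j'(τ_l) ≠ 0`: this is the
bound `3 m_1 + m_2` with `m_1 = k`, `m_2 = q`.

We prove that for all `q`, `d`, `δ` there is `C` such that for all complex numbers `w_1, …, w_q`, all number fields `K` of
degree at most `d` and all `N`, outside at most `C N^(k-1) log N` of the `N^k` tuples of exponents in `[1, N]^k`, for all such
points `z_i`, every relation of degree at most `δ` between the numbers `z_i`, `j'(z_i)`, `j''(z_i)`, with coefficients which are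
polynomials in `2 π i, w_1, …, w_q` over `K`, is trivial: the polynomial is zero after the substitution of the numbers
`2 π i, w_1, …, w_q`. There is no bound for the heights of the coefficients. If `2 π i, w_1, …, w_q` are algebraically
independent, there is no relation of degree `≤ δ` between these numbers and the `3 k` numbers. With `w_l = j'(τ_l)` this is the
bound of the conjecture for relations of degree `≤ δ`. The numbers `q`, `d`, `δ` may also grow with `N`, with `o(N^k)`
exceptions.

The theorem `MP_f58a57_nt.AlgebraicInvariants` on almost all tuples of algebraic integers `j(z_i)` in boxes says nothing about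
such sparse sequences.

Proof. At `X = 1/j(z)`, `2 π i z = log X + G(X)/F(X)` with the G-functions `F`, `G` of the hypergeometric equation of `j`.
A Hermite-Padé argument at the points `b^(-n)` for many `n` together shows that outside `C` exponents in each dyadic
interval all relations between the values, with coefficients in a vector space of bounded dimension, are specialisations
of functional relations, and there are none; the logarithms `n_i log b_i` go to the coefficients.
-/

set_option autoImplicit false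

open Filter

namespace Pool.Agent.Results.MP_f58a57_nt.GeometricInvariants

/-- the normalised Eisenstein series of weight `4` -/
noncomputable def E4 (τ : ℂ) : ℂ :=
  1 + 240 * ∑' m : ℕ, ((ArithmeticFunction.sigma 3 (m + 1) : ℕ) : ℂ) *
    Complex.exp (2 * (Real.pi : ℂ) * Complex.I * ((m : ℂ) + 1) * τ)

/-- the normalised Eisenstein series of weight `6` -/
noncomputable def E6 (τ : ℂ) : ℂ :=
  1 - 504 * ∑' m : ℕ, ((ArithmeticFunction.sigma 5 (m + 1) : ℕ) : ℂ) *
    Complex.exp (2 * (Real.pi : ℂ) * Complex.I * ((m : ℂ) + 1) * τ)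

/-- the modular invariant `j = q⁻¹ + 744 + 196884 q + ⋯` -/
noncomputable def J (τ : ℂ) : ℂ := 1728 * E4 τ ^ 3 / (E4 τ ^ 3 - E6 τ ^ 2)

/-- the numbers `z`, `j'(z)`, `j''(z)` -/
noncomputable def numbers (z : ℂ) : Fin 3 → ℂ := ![z, deriv J z, deriv (deriv J) z]

/-- The numbers `2 π i, w_1, …, w_q` and `numbers (z_1), …, numbers (z_k)`. -/
noncomputable def values {q k : ℕ} (w : Fin q → ℂ) (z : Fin k → ℂ) : Option (Fin q) ⊕ Fin k × Fin 3 → ℂ :=
  Sum.elim (fun o => o.elim (2 * Real.pi * Complex.I) w) fun v => numbers (z v.1) v.2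

/-- The numbers `2 π i, w_1, …, w_q` and `3 k` variables. -/
noncomputable def generic {q k : ℕ} (w : Fin q → ℂ) :
    Option (Fin q) ⊕ Fin k × Fin 3 → MvPolynomial (Fin k × Fin 3) ℂ :=
  Sum.elim (fun o => MvPolynomial.C (o.elim (2 * Real.pi * Complex.I) w)) MvPolynomial.X

/-- For some points `z_i` with `j(z_i) = a_i` or `j(z_i) = -a_i` some polynomial of degree at most `δ` over `K` vanishes at
`2 π i, w_1, …, w_q` and the `3 k` numbers, but not after the substitution of `2 π i, w_1, …, w_q` only. -/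
def Exceptional (δ : ℕ) {q k : ℕ} (w : Fin q → ℂ) (K : IntermediateField ℚ ℂ) (a : Fin k → ℂ) : Prop :=
  ∃ z : Fin k → ℂ, (∀ i, 0 < (z i).im ∧ (J (z i) = a i ∨ J (z i) = -a i)) ∧
    ∃ P : MvPolynomial (Option (Fin q) ⊕ Fin k × Fin 3) K, P.totalDegree ≤ δ ∧
      MvPolynomial.aeval (values w z) P = 0 ∧ MvPolynomial.aeval (generic (k := k) w) P ≠ 0

theorem J_eq : J = Pool.Agent.TH21.MS.jj := by
  have h4 : E4 = Pool.Agent.TH21.MS.E4 := funext Pool.Agent.Y120.J.E4_same
  have h6 : E6 = Pool.Agent.TH21.MS.E6 := funext Pool.Agent.Y120.J.E6_same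
  funext τ
  unfold J Pool.Agent.TH21.MS.jj
  rw [h4, h6]

theorem exc {δ q k : ℕ} {w : Fin q → ℂ} {K : IntermediateField ℚ ℂ} {a : Fin k → ℂ} (h : Exceptional δ w K a) :
    Pool.Agent.X120.JG.ExK δ (fun o : Option (Fin q) => o.elim (2 * Real.pi * Complex.I) w) K a := by
  obtain ⟨z, hz, P, hP, hP0, hPg⟩ := h
  refine ⟨fun i => ⟨z i, (hz i).1⟩, fun i => ?_, P, hP, ?_, hPg⟩
  · have h1 := (hz i).2
    rw [J_eq] at h1
    exact h1
  · refine Eq.trans ?_ hP0
    congr 2
    unfold values
    funext v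
    rcases v with o | v
    · rfl
    · show Pool.Agent.Y120.J.jt (z v.1) v.2 = numbers (z v.1) v.2
      unfold numbers Pool.Agent.Y120.J.jt
      rw [J_eq]

/-- **The theorem.** -/
theorem result (k : ℕ) (b : Fin k → ℕ) (hb : ∀ i, 2 ≤ b i) :
    (∀ q d δ : ℕ, ∃ C : ℝ, 0 ≤ C ∧ ∀ (w : Fin q → ℂ) (K : IntermediateField ℚ ℂ), FiniteDimensional ℚ K →
      Module.finrank ℚ K ≤ d → ∀ N : ℕ, 2 ≤ N →
      (({n : Fin k → ℕ | (∀ i, 1 ≤ n i ∧ n i ≤ N) ∧ Exceptional δ w K fun i => (b i : ℂ) ^ n i}.ncard : ℕ) : ℝ) * N ≤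
        C * (N : ℝ) ^ k * Real.log N) ∧
    (∃ (M : ℕ → ℕ) (ε : ℕ → ℝ), Tendsto M atTop atTop ∧ Tendsto ε atTop (nhds 0) ∧
      ∀ N : ℕ, 2 ≤ N → ∀ (w : Fin (M N) → ℂ) (K : IntermediateField ℚ ℂ), FiniteDimensional ℚ K →
      Module.finrank ℚ K ≤ M N →
      (({n : Fin k → ℕ | (∀ i, 1 ≤ n i ∧ n i ≤ N) ∧ Exceptional (M N) w K fun i => (b i : ℂ) ^ n i}.ncard : ℕ) : ℝ) ≤
        ε N * (N : ℝ) ^ k) := by
  have hmain : ∀ q d δ : ℕ, ∃ C : ℝ, 0 ≤ C ∧ ∀ (w : Fin q → ℂ) (K : IntermediateField ℚ ℂ), FiniteDimensional ℚ K →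
      Module.finrank ℚ K ≤ d → ∀ N : ℕ, 2 ≤ N →
      (({n : Fin k → ℕ | (∀ i, 1 ≤ n i ∧ n i ≤ N) ∧ Exceptional δ w K fun i => (b i : ℂ) ^ n i}.ncard : ℕ) : ℝ) * N ≤
        C * (N : ℝ) ^ k * Real.log N := by
    intro q d δ
    obtain ⟨C, hC, h1⟩ := Pool.Agent.X120.JG.specK q k δ d hb
    refine ⟨C, hC, ?_⟩
    intro w K hKf hKd N hN
    refine le_trans (mul_le_mul_of_nonneg_right ?_ (Nat.cast_nonneg _)) (h1 (fun o : Option (Fin q) => o.elim (2 * Real.pi * Complex.I) w) K hKf hKd N hN)
    have hfin : {t : Fin k → ℕ | (∀ i, 1 ≤ t i ∧ t i ≤ N) ∧ Pool.Agent.X120.JG.ExK δ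
        (fun o : Option (Fin q) => o.elim (2 * Real.pi * Complex.I) w) K fun i => (b i : ℂ) ^ t i}.Finite := by
      refine (Set.finite_Iic (fun _ : Fin k => N)).subset ?_
      intro t ht i
      exact (ht.1 i).2
    have hsub : {n : Fin k → ℕ | (∀ i, 1 ≤ n i ∧ n i ≤ N) ∧ Exceptional δ w K fun i => (b i : ℂ) ^ n i} ⊆
        {t : Fin k → ℕ | (∀ i, 1 ≤ t i ∧ t i ≤ N) ∧ Pool.Agent.X120.JG.ExK δ
        (fun o : Option (Fin q) => o.elim (2 * Real.pi * Complex.I) w) K fun i => (b i : ℂ) ^ t i} :=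
      fun t ht => ⟨ht.1, exc ht.2⟩
    exact_mod_cast Set.ncard_le_ncard hsub hfin
  refine ⟨hmain, ?_⟩
  choose C hC hcount using hmain
  obtain ⟨M, hM, hε⟩ := Pool.Agent.Y123.GN.diag_seq (fun D N => C D D D * (Real.log N / N)) (by
      intro D
      have h1 : Tendsto (fun N : ℕ => Real.log N / N) atTop (nhds 0) :=
        (Real.isLittleO_log_id_atTop.tendsto_div_nhds_zero).comp tendsto_natCast_atTop_atTop
      have h5 := h1.const_mul (C D D D)
      rw [mul_zero] at h5
      exact h5)
  refine ⟨M, _, hM, hε, ?_⟩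
  intro N hN w K hKf hKd
  have h1 := hcount (M N) (M N) (M N) w K hKf hKd N hN
  have hN0 : (0 : ℝ) < N := by
    have : 0 < N := by omega
    exact_mod_cast this
  refine le_of_mul_le_mul_right (h1.trans (le_of_eq ?_)) hN0
  field_simp

end Pool.Agent.Results.MP_f58a57_nt.GeometricInvariants
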