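import Pool.Agent.Results.MP_f58a57_nt.ApproximationsOfAllNumbers
import Pool.Agent.X174.MasterTup

/-!
# Values of `j`, `j'`, `j''` at ALL simultaneous approximations of `n` points by algebraic points

For each `l ≤ n` let `s_l1, …, s_lp > 0` be real numbers, linearly independent over `ℚ` (for instance `p = 1`, `s = 1`). For
every `ω > 0` there is ONE set `E ⊂ ℂ^n` of Hausdorff dimension at most `2 m (n - 1) / ω` such that for all `x ∈ H^n` outside
`E`, all number fields `F ⊂ ℂ` of degree at most `m`, all `d` and `A` there are `B` and `T₁` such that for all `T ≥ T₁` and ALL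
simultaneous approximations `z ∈ F^n` of `x`, of height at most `T`, with `|z_l - x_l| ≤ T ^ (-ω)` for all `l`, the `4 n p`
numbers `e^(-2πi s_li z_l)`, `j (s_li z_l)`, `j' (s_li z_l)`, `j'' (s_li z_l)` satisfy no relation of degree at most `d` with
coefficients which are polynomials of degree at most `d` in the `u_lk(z_l) / w_l(z_l)` and in given complex numbers `ξ_i` (for
instance values of `j'` at special points), with coefficients in `F` of height at most `T ^ A`, not even up to `T ^ (-B)`.
For imaginary quadratic `F` (`m = 2`) the dimension is less than `2 n` if `ω > 2 (n - 1) / n`. Exceptions for `n ≥ 2` are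
unavoidable: `z_2 = z_1`, or points related by the modular group.

The case `n = 1` is the result `ApproximationsOfAllNumbers`, from which the functions are taken.
-/

set_option autoImplicit false

open MeasureTheory NumberField

namespace Pool.Agent.Results.MP_f58a57_nt.SimultaneousApproximations

open Pool.Agent.X39.Near (Size)
open Pool.Agent.X174.NearTup (DependentT)
open ApproximationsOfAllNumbers (H values)

/-- **Theorem.** Let `n ≥ 1`, `m` be natural numbers; for each `l < n` let `s_l1, …, s_lp > 0` be linearly independent over `ℚ`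
and `u_lk`, `w_l` complex polynomials, `w_l` without zeros in the upper half-plane `H`; let `ξ_1, …, ξ_g` be complex numbers
and `ω > 0`. There is a set `E ⊂ ℂ^n` of Hausdorff dimension at most `2 m (n - 1) / ω` such that for all `x ∈ H^n` outside `E`,
all number fields `F` of degree at most `m` with an embedding `ι` in `ℂ` and all `d`, `A` there are `B`, `T₁` such that for all
`T ≥ T₁` and all `t ∈ F^n`, quotients of integers with conjugates at most `T`, with `|ι t_l - x_l| ≤ T ^ (-ω)` for all `l`, the
values of these functions at `t` are not dependent. -/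
theorem result {n p q g : ℕ} (hn : 1 ≤ n) (m : ℕ) (s : Fin n → Fin p → ℝ) (hs0 : ∀ l i, 0 < s l i)
    (hs : ∀ l, ∀ c : Fin p → ℤ, ∑ i, (c i : ℝ) * s l i = 0 → c = 0)
    (u : Fin n → Fin q → Polynomial ℂ) (w : Fin n → Polynomial ℂ) (hw : ∀ l, ∀ t ∈ H, (w l).eval t ≠ 0)
    (ξ : Fin g → ℂ) (ω : ℝ) (hω : 0 < ω) :
    ∃ E : Set (Fin n → ℂ), dimH E ≤ ENNReal.ofReal (2 * m * ((n : ℝ) - 1) / ω) ∧
      ∀ x : Fin n → ℂ, (∀ l, x l ∈ H) → x ∉ E → ∀ (F : Type) [Field F] [NumberField F],
        Module.finrank ℚ F ≤ m → ∀ (ι : F →+* ℂ) (d A : ℕ), ∃ B T₁ : ℝ, ∀ T : ℝ, T₁ ≤ T → ∀ t : Fin n → F,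
          (∀ l, Size F T (t l)) → (∀ l, ‖ι (t l) - x l‖ ≤ T ^ (-ω)) →
            ¬ DependentT (fun l => values (s l)) u w ξ F ι d A B T t := by
  obtain ⟨E, h1, -, h2⟩ := Pool.Agent.X174.NearTup.masterTup hn m (fun _ => H)
    (fun _ => isOpen_lt continuous_const Complex.continuous_im)
    (fun l => values (s l)) (fun l i t ht => Pool.Agent.Y771.KF.fP_an (s l) (hs0 l) i t ht)
    (fun l => Pool.Agent.X39.Near.locInd_of Pool.Agent.Y771.KF.preconn_H (values (s l))
      (fun i t ht => Pool.Agent.Y771.KF.fP_an (s l) (hs0 l) i t ht) (Pool.Agent.Y771.KF.fP_ind (s l) (hs0 l) (hs l)))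
    u w hw ξ hω
  exact ⟨E, h1, h2⟩

end Pool.Agent.Results.MP_f58a57_nt.SimultaneousApproximations
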